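import Mathlib

set_option autoImplicit false
set_option linter.unusedSectionVars false
open Filter Topology
open scoped BoundedContinuousFunction

/-! An isometric form of the theorem of Pelczynski: a Banach space on which rank one operators
have partial sums of norm at most one converging pointwise to the identity is isometric to the
range of a norm one projection on a Banach space with a monotone basis. -/

namespace Pool.Agent.W58.MB

noncomputable section

variable {E : Type} [NormedAddCommGroup E] [NormedSpace ℝ E]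

/-- convergent sequences with `u 0 = 0` and increments in prescribed lines -/
def Bs (y : ℕ → E) : Submodule ℝ (ℕ →ᵇ E) where
  carrier := {u | u 0 = 0 ∧ (∀ k, u (k + 1) - u k ∈ Submodule.span ℝ {y k}) ∧
    CauchySeq (fun k => u k)}
  zero_mem' := by
    refine ⟨rfl, fun k => ?_, ?_⟩
    · simp
    · simpa using cauchySeq_const (0 : E)
  add_mem' := by
    rintro u v ⟨hu0, hu1, hu2⟩ ⟨hv0, hv1, hv2⟩
    refine ⟨by simp [hu0, hv0], fun k => ?_, ?_⟩
    · have := Submodule.add_mem _ (hu1 k) (hv1 k)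
      have h2 : (u + v) (k + 1) - (u + v) k = (u (k + 1) - u k) + (v (k + 1) - v k) := by
        simp only [BoundedContinuousFunction.coe_add, Pi.add_apply]; abel
      rw [h2]; exact this
    · exact hu2.add hv2
  smul_mem' := by
    rintro c u ⟨hu0, hu1, hu2⟩
    refine ⟨by simp [hu0], fun k => ?_, ?_⟩
    · have := Submodule.smul_mem _ c (hu1 k)
      have h2 : (c • u) (k + 1) - (c • u) k = c • (u (k + 1) - u k) := by
        simp only [BoundedContinuousFunction.coe_smul, smul_sub]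
      rw [h2]; exact this
    · exact (uniformContinuous_const_smul c).comp_cauchySeq hu2

lemma mem_Bs (y : ℕ → E) (u : ℕ →ᵇ E) : u ∈ Bs y ↔ u 0 = 0 ∧
    (∀ k, u (k + 1) - u k ∈ Submodule.span ℝ {y k}) ∧ CauchySeq (fun k => u k) := Iff.rfl

lemma continuous_ev (k : ℕ) : Continuous (fun u : ℕ →ᵇ E => u k) :=
  (BoundedContinuousFunction.evalCLM ℝ k).continuous

lemma closed_Bs (y : ℕ → E) : IsClosed (Bs y : Set (ℕ →ᵇ E)) := by
  have h1 : IsClosed {u : ℕ →ᵇ E | u 0 = 0} := isClosed_singleton.preimage (continuous_ev 0)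
  have h2 : ∀ k, IsClosed {u : ℕ →ᵇ E | u (k + 1) - u k ∈ Submodule.span ℝ {y k}} := by
    intro k
    have : IsClosed ((Submodule.span ℝ {y k} : Submodule ℝ E) : Set E) :=
      Submodule.closed_of_finiteDimensional _
    exact this.preimage ((continuous_ev (k + 1)).sub (continuous_ev k))
  have h3 : IsClosed {u : ℕ →ᵇ E | CauchySeq (fun k => u k)} := by
    refine isClosed_of_closure_subset fun u hu => ?_
    rw [Metric.mem_closure_iff] at hu
    show CauchySeq (fun k => u k)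
    rw [Metric.cauchySeq_iff]
    intro ε hε
    obtain ⟨v, hv, hd⟩ := hu (ε / 3) (by positivity)
    have hv' : CauchySeq (fun k => v k) := hv
    rw [Metric.cauchySeq_iff] at hv'
    obtain ⟨N, hN⟩ := hv' (ε / 3) (by positivity)
    refine ⟨N, fun m hm n hn => ?_⟩
    have e1 := (BoundedContinuousFunction.dist_coe_le_dist (f := u) (g := v) m)
    have e2 := (BoundedContinuousFunction.dist_coe_le_dist (f := u) (g := v) n)
    have e3 := hN m hm n hn
    calc dist (u m) (u n) ≤ dist (u m) (v m) + dist (v m) (v n) + dist (v n) (u n) :=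
          dist_triangle4 _ _ _ _
      _ < ε := by rw [dist_comm (v n) (u n)]; linarith
  have h4 : (Bs y : Set (ℕ →ᵇ E)) = {u : ℕ →ᵇ E | u 0 = 0} ∩
      ((⋂ k, {u : ℕ →ᵇ E | u (k + 1) - u k ∈ Submodule.span ℝ {y k}}) ∩
        {u : ℕ →ᵇ E | CauchySeq (fun k => u k)}) := by
    ext u
    simp only [SetLike.mem_coe, mem_Bs, Set.mem_inter_iff, Set.mem_setOf_eq, Set.mem_iInter]
  rw [h4]
  exact h1.inter ((isClosed_iInter h2).inter h3)

variable [CompleteSpace E]

instance (y : ℕ → E) : CompleteSpace (Bs y) := (closed_Bs y).completeSpace_coe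

/-- unit vectors -/
def ue (y : ℕ → E) (i : ℕ) : Bs y :=
  ⟨BoundedContinuousFunction.ofNormedAddCommGroupDiscrete (fun k => if i < k then y i else 0)
    ‖y i‖ (fun k => by split_ifs <;> simp), by
    refine ⟨by simp, fun k => ?_, ?_⟩
    · simp only [BoundedContinuousFunction.coe_ofNormedAddCommGroupDiscrete]
      rcases lt_trichotomy i k with h | h | h
      · rw [if_pos (by omega), if_pos h, sub_self]; exact Submodule.zero_mem _
      · subst h
        rw [if_pos (by omega), if_neg (by omega), sub_zero]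
        exact Submodule.mem_span_singleton_self _
      · rw [if_neg (by omega), if_neg (by omega), sub_self]; exact Submodule.zero_mem _
    · refine (tendsto_const_nhds (x := y i)).congr' ?_ |>.cauchySeq
      filter_upwards [eventually_gt_atTop i] with k hk
      simp [hk]⟩

lemma ue_apply (y : ℕ → E) (i k : ℕ) : (ue y i : ℕ →ᵇ E) k = if i < k then y i else 0 := rfl

lemma sum_ue_apply (y : ℕ → E) (a : ℕ → ℝ) (n k : ℕ) :
    ((∑ i ∈ Finset.range n, a i • ue y i : Bs y) : ℕ →ᵇ E) k =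
      ∑ i ∈ Finset.range (min n k), a i • y i := by
  induction n with
  | zero => simp
  | succ n ih =>
    rw [Finset.sum_range_succ]
    have h1 : ((∑ i ∈ Finset.range n, a i • ue y i + a n • ue y n : Bs y) : ℕ →ᵇ E) k =
      ((∑ i ∈ Finset.range n, a i • ue y i : Bs y) : ℕ →ᵇ E) k + a n • (ue y n : ℕ →ᵇ E) k := rfl
    rw [h1, ih, ue_apply]
    by_cases h : n < k
    · rw [if_pos h, min_eq_left h.le, min_eq_left (by omega : n + 1 ≤ k), Finset.sum_range_succ]
    · rw [if_neg h, smul_zero, add_zero, min_eq_right (by omega), min_eq_right (by omega)]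

lemma sum_ue_apply' (y : ℕ → E) (a : ℕ → ℝ) (n : ℕ) :
    ((∑ i ∈ Finset.range n, a i • ue y i : Bs y) : ℕ →ᵇ E) n =
      ∑ i ∈ Finset.range n, a i • y i := by
  rw [sum_ue_apply, min_self]

lemma norm_Bs_le (y : ℕ → E) (u : Bs y) (C : ℝ) (hC : 0 ≤ C)
    (h : ∀ k, ‖(u : ℕ →ᵇ E) k‖ ≤ C) : ‖u‖ ≤ C :=
  (BoundedContinuousFunction.norm_le hC).2 h

lemma le_norm_Bs (y : ℕ → E) (u : Bs y) (k : ℕ) : ‖(u : ℕ →ᵇ E) k‖ ≤ ‖u‖ :=
  BoundedContinuousFunction.norm_coe_le_norm (u : ℕ →ᵇ E) k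

/-- the unit vectors are monotone -/
lemma ue_mono (y : ℕ → E) (a : ℕ → ℝ) (n m : ℕ) (h : n ≤ m) :
    ‖∑ i ∈ Finset.range n, a i • ue y i‖ ≤ ‖∑ i ∈ Finset.range m, a i • ue y i‖ := by
  refine norm_Bs_le y _ _ (norm_nonneg _) fun k => ?_
  rw [sum_ue_apply]
  have := le_norm_Bs y (∑ i ∈ Finset.range m, a i • ue y i) (min n k)
  rw [sum_ue_apply] at this
  rwa [show min m (min n k) = min n k by omega] at this

/-- the unit vectors are a Schauder basis -/
lemma ue_basis (y : ℕ → E) (hy : ∀ i, y i ≠ 0) (x : Bs y) : ∃! a : ℕ → ℝ,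
    Tendsto (fun n : ℕ => ∑ i ∈ Finset.range n, a i • ue y i) atTop (𝓝 x) := by
  have hx := x.2
  rw [mem_Bs] at hx
  obtain ⟨hx0, hx1, hx2⟩ := hx
  have hex : ∀ k, ∃ c : ℝ, c • y k = (x : ℕ →ᵇ E) (k + 1) - (x : ℕ →ᵇ E) k := fun k =>
    Submodule.mem_span_singleton.1 (hx1 k)
  choose a ha using hex
  have hsum : ∀ k, ∑ i ∈ Finset.range k, a i • y i = (x : ℕ →ᵇ E) k := by
    intro k
    rw [Finset.sum_congr rfl fun i _ => ha i, Finset.sum_range_sub (fun i => (x : ℕ →ᵇ E) i), hx0,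
      sub_zero]
  refine ⟨a, ?_, ?_⟩
  · show Tendsto (fun n : ℕ => ∑ i ∈ Finset.range n, a i • ue y i) atTop (𝓝 x)
    rw [Metric.tendsto_atTop]
    intro ε hε
    rw [Metric.cauchySeq_iff] at hx2
    obtain ⟨N, hN⟩ := hx2 (ε / 2) (by positivity)
    refine ⟨N, fun n hn => ?_⟩
    rw [dist_eq_norm]
    refine lt_of_le_of_lt (norm_Bs_le y _ (ε / 2) (by positivity) fun k => ?_) (by linarith)
    have h1 : ((∑ i ∈ Finset.range n, a i • ue y i - x : Bs y) : ℕ →ᵇ E) k =
      ((∑ i ∈ Finset.range n, a i • ue y i : Bs y) : ℕ →ᵇ E) k - (x : ℕ →ᵇ E) k := rfl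
    rw [h1, sum_ue_apply, hsum]
    rcases le_total k n with h | h
    · rw [min_eq_right h, sub_self, norm_zero]; positivity
    · rw [min_eq_left h, ← dist_eq_norm]
      exact (hN n hn k (by omega)).le
  · intro c hc
    have hk : ∀ k, ∑ i ∈ Finset.range k, c i • y i = (x : ℕ →ᵇ E) k := by
      intro k
      have h1 : Tendsto (fun n : ℕ => ((∑ i ∈ Finset.range n, c i • ue y i : Bs y) : ℕ →ᵇ E) k)
          atTop (𝓝 ((x : ℕ →ᵇ E) k)) :=
        (((continuous_ev k).comp continuous_subtype_val).tendsto x).comp hc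
      have h2 : Tendsto (fun n : ℕ => ((∑ i ∈ Finset.range n, c i • ue y i : Bs y) : ℕ →ᵇ E) k)
          atTop (𝓝 (∑ i ∈ Finset.range k, c i • y i)) := by
        refine tendsto_const_nhds.congr' ?_
        filter_upwards [eventually_ge_atTop k] with n hn
        rw [sum_ue_apply, min_eq_right hn]
      exact tendsto_nhds_unique h2 h1
    funext i
    have h1 := hk (i + 1)
    have h2 := hsum (i + 1)
    rw [Finset.sum_range_succ, hk i] at h1
    rw [Finset.sum_range_succ, hsum i] at h2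
    have h3 : c i • y i = a i • y i := add_left_cancel (h1.trans h2.symm)
    exact smul_left_injective ℝ (hy i) h3

variable (y : ℕ → E) (g : ℕ → E →L[ℝ] ℝ)

/-- partial sums -/
def V (y : ℕ → E) (g : ℕ → E →L[ℝ] ℝ) (k : ℕ) (x : E) : E := ∑ i ∈ Finset.range k, g i x • y i

/-- the embedding as a linear map -/
def J (hV : ∀ k x, ‖V y g k x‖ ≤ ‖x‖) (hlim : ∀ x, Tendsto (fun k => V y g k x) atTop (𝓝 x)) :
    E →ₗ[ℝ] Bs y where
  toFun x := ⟨BoundedContinuousFunction.ofNormedAddCommGroupDiscrete (fun k => V y g k x)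
    ‖x‖ (fun k => hV k x), by
      refine ⟨by simp [V], fun k => ?_, ?_⟩
      · simp only [BoundedContinuousFunction.coe_ofNormedAddCommGroupDiscrete]
        unfold V
        rw [Finset.sum_range_succ, add_sub_cancel_left]
        exact Submodule.smul_mem _ _ (Submodule.mem_span_singleton_self _)
      · exact (hlim x).cauchySeq⟩
  map_add' x z := by
    apply Subtype.ext
    ext k
    show V y g k (x + z) = V y g k x + V y g k z
    unfold V
    rw [← Finset.sum_add_distrib]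
    exact Finset.sum_congr rfl fun i _ => by rw [map_add, add_smul]
  map_smul' c x := by
    apply Subtype.ext
    ext k
    show V y g k (c • x) = c • V y g k x
    unfold V
    rw [Finset.smul_sum]
    exact Finset.sum_congr rfl fun i _ => by rw [map_smul, smul_smul, smul_eq_mul]

variable {y g}
variable (hV : ∀ k x, ‖V y g k x‖ ≤ ‖x‖) (hlim : ∀ x, Tendsto (fun k => V y g k x) atTop (𝓝 x))

lemma J_apply (x : E) (k : ℕ) : ((J y g hV hlim x : Bs y) : ℕ →ᵇ E) k = V y g k x := rfl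

lemma J_norm (x : E) : ‖J y g hV hlim x‖ = ‖x‖ := by
  apply le_antisymm
  · exact norm_Bs_le y _ _ (norm_nonneg _) fun k => hV k x
  · refine le_of_tendsto (hlim x).norm (Eventually.of_forall fun k => ?_)
    exact le_norm_Bs y (J y g hV hlim x) k

/-- the limit -/
def Q (y : ℕ → E) (u : Bs y) : E := (cauchySeq_tendsto_of_complete u.2.2.2).choose

lemma Q_spec (u : Bs y) : Tendsto (fun k => (u : ℕ →ᵇ E) k) atTop (𝓝 (Q y u)) :=
  (cauchySeq_tendsto_of_complete u.2.2.2).choose_spec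

lemma Q_norm (u : Bs y) : ‖Q y u‖ ≤ ‖u‖ :=
  le_of_tendsto (Q_spec u).norm (Eventually.of_forall fun k => le_norm_Bs y u k)

lemma Q_J (x : E) : Q y (J y g hV hlim x) = x :=
  tendsto_nhds_unique (Q_spec (J y g hV hlim x)) (hlim x)

/-- the limit as a linear map -/
def Ql (y : ℕ → E) : Bs y →ₗ[ℝ] E where
  toFun := Q y
  map_add' u v := tendsto_nhds_unique (Q_spec (u + v)) ((Q_spec u).add (Q_spec v))
  map_smul' c u := tendsto_nhds_unique (Q_spec (c • u)) ((Q_spec u).const_smul c)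

/-- the projection -/
def Pr (hV : ∀ k x, ‖V y g k x‖ ≤ ‖x‖) (hlim : ∀ x, Tendsto (fun k => V y g k x) atTop (𝓝 x)) :
    Bs y →L[ℝ] Bs y :=
  ((J y g hV hlim).comp (Ql y)).mkContinuous 1 (fun u => by
    rw [one_mul]
    show ‖J y g hV hlim (Q y u)‖ ≤ ‖u‖
    rw [J_norm]
    exact Q_norm u)

lemma Pr_apply (u : Bs y) : Pr hV hlim u = J y g hV hlim (Q y u) := rfl

lemma Pr_norm : ‖Pr hV hlim‖ ≤ 1 := LinearMap.mkContinuous_norm_le _ zero_le_one _

/-- the range -/
def Fs (hV : ∀ k x, ‖V y g k x‖ ≤ ‖x‖) (hlim : ∀ x, Tendsto (fun k => V y g k x) atTop (𝓝 x)) :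
    Submodule ℝ (Bs y) := LinearMap.range (J y g hV hlim)

lemma Pr_Fs (u : Bs y) (hu : u ∈ Fs hV hlim) : Pr hV hlim u = u := by
  obtain ⟨x, rfl⟩ := hu
  rw [Pr_apply, Q_J]

lemma mem_Fs (u : Bs y) : u ∈ Fs hV hlim ↔ Pr hV hlim u = u :=
  ⟨Pr_Fs hV hlim u, fun h => h ▸ ⟨_, rfl⟩⟩

lemma closed_Fs : IsClosed (Fs hV hlim : Set (Bs y)) := by
  have : (Fs hV hlim : Set (Bs y)) = {u | Pr hV hlim u = u} := by
    ext u
    exact mem_Fs hV hlim u
  rw [this]
  exact isClosed_eq (Pr hV hlim).continuous continuous_id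

/-- If `E` has no monotone basis then neither has the range. -/
theorem main (hV : ∀ k x, ‖V y g k x‖ ≤ ‖x‖)
    (hlim : ∀ x, Tendsto (fun k => V y g k x) atTop (𝓝 x)) (hy : ∀ i, y i ≠ 0) (hfin : ¬ FiniteDimensional ℝ E)
    (hno : ∀ e : ℕ → E, (∀ x : E, ∃! a : ℕ → ℝ,
        Tendsto (fun n : ℕ => ∑ i ∈ Finset.range n, a i • e i) atTop (𝓝 x)) →
      (∀ (a : ℕ → ℝ) (m n : ℕ), m ≤ n →
        ‖∑ i ∈ Finset.range m, a i • e i‖ ≤ ‖∑ i ∈ Finset.range n, a i • e i‖) → False)
    (H : ∀ (B : Type) [NormedAddCommGroup B] [NormedSpace ℝ B] [CompleteSpace B],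
    ¬ FiniteDimensional ℝ B →
    (∃ e : ℕ → B,
      (∀ x : B, ∃! a : ℕ → ℝ,
        Tendsto (fun n : ℕ => ∑ i ∈ Finset.range n, a i • e i) atTop (𝓝 x)) ∧
      (∀ (a : ℕ → ℝ) (n m : ℕ), n ≤ m →
        ‖∑ i ∈ Finset.range n, a i • e i‖ ≤ ‖∑ i ∈ Finset.range m, a i • e i‖)) →
    ∀ F : Submodule ℝ B, IsClosed (F : Set B) → ¬ FiniteDimensional ℝ F →
      (∃ P : B →L[ℝ] B, (∀ x : B, P x ∈ F) ∧ (∀ x ∈ F, P x = x) ∧ ‖P‖ ≤ 1) →
      ∃ f : ℕ → B, (∀ i : ℕ, f i ∈ F) ∧
        (∀ x ∈ F, ∃! a : ℕ → ℝ,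
          Tendsto (fun n : ℕ => ∑ i ∈ Finset.range n, a i • f i) atTop (𝓝 x)) ∧
        (∀ (a : ℕ → ℝ) (n m : ℕ), n ≤ m →
          ‖∑ i ∈ Finset.range n, a i • f i‖ ≤ ‖∑ i ∈ Finset.range m, a i • f i‖)) : False := by
  have hJinj : Function.Injective (J y g hV hlim) := by
    intro x z h
    have := congrArg (Q y) h
    rwa [Q_J, Q_J] at this
  have hFfin : ¬ FiniteDimensional ℝ (Fs hV hlim) := by
    intro h
    apply hfin
    have h' : FiniteDimensional ℝ (LinearMap.range (J y g hV hlim)) := h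
    exact Module.Finite.equiv (LinearEquiv.ofInjective (J y g hV hlim) hJinj).symm
  have hBfin : ¬ FiniteDimensional ℝ (Bs y) := by
    intro h
    exact hFfin (FiniteDimensional.finiteDimensional_submodule _)
  obtain ⟨f, hf, hf1, hf2⟩ := H (Bs y) hBfin ⟨ue y, ue_basis y hy, fun a n m h => ue_mono y a n m h⟩
    (Fs hV hlim) (closed_Fs hV hlim) hFfin
    ⟨Pr hV hlim, fun x => ⟨_, rfl⟩, fun x hx => Pr_Fs hV hlim x hx, Pr_norm hV hlim⟩
  have hJe : ∀ i, J y g hV hlim (Ql y (f i)) = f i := fun i => Pr_Fs hV hlim (f i) (hf i)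
  have hsum : ∀ (a : ℕ → ℝ) (n : ℕ), J y g hV hlim (∑ i ∈ Finset.range n, a i • Ql y (f i)) =
      ∑ i ∈ Finset.range n, a i • f i := by
    intro a n
    rw [map_sum]
    exact Finset.sum_congr rfl fun i _ => by rw [map_smul, hJe]
  have hdist : ∀ x z : E, dist (J y g hV hlim x) (J y g hV hlim z) = dist x z := by
    intro x z
    rw [dist_eq_norm, dist_eq_norm, ← map_sub, J_norm]
  have hiff : ∀ (a : ℕ → ℝ) (x : E),
      Tendsto (fun n : ℕ => ∑ i ∈ Finset.range n, a i • Ql y (f i)) atTop (𝓝 x) ↔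
      Tendsto (fun n : ℕ => ∑ i ∈ Finset.range n, a i • f i) atTop (𝓝 (J y g hV hlim x)) := by
    intro a x
    have e1 := tendsto_iff_dist_tendsto_zero
      (f := fun n : ℕ => ∑ i ∈ Finset.range n, a i • Ql y (f i)) (x := atTop) (a := x)
    have e2 := tendsto_iff_dist_tendsto_zero
      (f := fun n : ℕ => ∑ i ∈ Finset.range n, a i • f i) (x := atTop) (a := J y g hV hlim x)
    rw [e1, e2]
    have e3 : (fun n : ℕ => dist (∑ i ∈ Finset.range n, a i • Ql y (f i)) x) =
        fun n : ℕ => dist (∑ i ∈ Finset.range n, a i • f i) (J y g hV hlim x) := by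
      funext n
      rw [← hsum, hdist]
    rw [e3]
  refine hno (fun i => Ql y (f i)) ?_ ?_
  · intro x
    obtain ⟨a, ha, hau⟩ := hf1 (J y g hV hlim x) ⟨x, rfl⟩
    exact ⟨a, (hiff a x).2 ha, fun c hc => hau c ((hiff c x).1 hc)⟩
  · intro a m n hmn
    have := hf2 a m n hmn
    rwa [← hsum, ← hsum, J_norm, J_norm] at this

end

end Pool.Agent.W58.MB
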