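import Mathlib
import Pool.Agent.Helper519.BasisAttain
import Pool.Agent.W58.MB.Pel

set_option autoImplicit false
set_option linter.unusedSectionVars false
open Filter Topology

/-! Rank one operators on the hyperplane of `c_0` without a monotone basis whose partial sums have
norm at most one and converge pointwise to the identity. -/

namespace Pool.Agent.W58.MB

noncomputable section

open Pool.Agent.Helper519.BasisAttain

/-- the order of the steps -/
def st : ℕ → ℕ × ℕ
  | 0 => (0, 0)
  | k + 1 => if (st k).2 < (st k).1 then ((st k).1, (st k).2 + 1) else ((st k).1 + 1, 0)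

lemma st_succ (k : ℕ) : st (k + 1) =
    if (st k).2 < (st k).1 then ((st k).1, (st k).2 + 1) else ((st k).1 + 1, 0) := rfl

lemma st_le (k : ℕ) : (st k).2 ≤ (st k).1 := by
  induction k with
  | zero => simp [st]
  | succ k ih =>
    rw [st_succ]
    split_ifs with h
    · exact h
    · exact Nat.zero_le _

lemma st_eq (k : ℕ) : (st k).1 * ((st k).1 + 1) + 2 * (st k).2 = 2 * k := by
  induction k with
  | zero => simp [st]
  | succ k ih =>
    rw [st_succ]
    split_ifs with h
    · simp only
      linarith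
    · have h1 := st_le k
      have h2 : (st k).2 = (st k).1 := by omega
      rw [h2] at ih
      simp only
      nlinarith

lemma st_tendsto : Tendsto (fun k => (st k).1) atTop atTop := by
  rw [tendsto_atTop]
  intro n
  filter_upwards [eventually_ge_atTop ((n + 2) * (n + 2))] with k hk
  by_contra hlt
  rw [not_le] at hlt
  have h1 := st_eq k
  have h2 := st_le k
  nlinarith

/-- the defects -/
def s (n : ℕ) : ℝ := 2 / ((n : ℝ) + 2)

lemma s_pos (n : ℕ) : 0 < s n := by unfold s; positivity

lemma s_le_one (n : ℕ) : s n ≤ 1 := by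
  unfold s
  rw [div_le_one (by positivity)]
  have : (0 : ℝ) ≤ n := Nat.cast_nonneg n
  linarith

lemma s_anti (n : ℕ) : s (n + 1) ≤ s n := by
  unfold s
  push_cast
  gcongr
  linarith

/-- the coefficients -/
def c (n j i : ℕ) : ℝ := if i < j then 1 - s (n + 1) else 1 - s n

lemma c_nonneg (n j i : ℕ) : 0 ≤ c n j i := by
  unfold c
  have := s_le_one n
  have := s_le_one (n + 1)
  split_ifs <;> linarith

lemma c_le (n j i : ℕ) : c n j i ≤ 1 := by
  unfold c
  have := s_pos n
  have := s_pos (n + 1)
  split_ifs <;> linarith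

lemma c_ge (n j i : ℕ) : 1 - s n ≤ c n j i := by
  unfold c
  have := s_anti n
  split_ifs <;> linarith

lemma co_comb (n : ℕ) (d : ℕ → ℝ) (i : ℕ) :
    co (∑ k ∈ Finset.range n, d k • b k) (i + 1) = if i < n then d i else 0 := by
  rw [co_sum]
  have : ∀ k ∈ Finset.range n, co (d k • b k) (i + 1) = if i = k then d k else 0 := by
    intro k _
    rw [co_smul, co_b_succ]
    split_ifs <;> simp
  rw [Finset.sum_congr rfl this, Finset.sum_ite_eq]
  simp

lemma co_comb_zero (n : ℕ) (d : ℕ → ℝ) :
    co (∑ k ∈ Finset.range n, d k • b k) 0 = ∑ k ∈ Finset.range n, d k * w k := by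
  rw [co_sum]
  exact Finset.sum_congr rfl fun k _ => by rw [co_smul, co_b_zero]

lemma sum_w_le (n : ℕ) : ∑ k ∈ Finset.range n, w k ≤ 3 / 2 :=
  sum_le_hasSum _ (fun i _ => w_nonneg i) hasSum_w

lemma comb_le (n : ℕ) (d : ℕ → ℝ) (D : ℝ) (hD : 0 ≤ D) (h : ∀ i, i < n → |d i| ≤ D) :
    ‖∑ k ∈ Finset.range n, d k • b k‖ ≤ 3 / 2 * D := by
  refine norm_le _ _ (by positivity) fun j => ?_
  rcases j with _ | i
  · rw [co_comb_zero]
    calc |∑ k ∈ Finset.range n, d k * w k| ≤ ∑ k ∈ Finset.range n, |d k * w k| :=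
          Finset.abs_sum_le_sum_abs _ _
      _ ≤ ∑ k ∈ Finset.range n, w k * D := by
          refine Finset.sum_le_sum fun k hk => ?_
          rw [abs_mul, abs_of_nonneg (w_nonneg k), mul_comm]
          exact mul_le_mul_of_nonneg_left (h k (Finset.mem_range.1 hk)) (w_nonneg k)
      _ = (∑ k ∈ Finset.range n, w k) * D := by rw [Finset.sum_mul]
      _ ≤ 3 / 2 * D := mul_le_mul_of_nonneg_right (sum_w_le n) hD
  · rw [co_comb]
    split_ifs with hi
    · linarith [h i hi]
    · simpa using (by positivity : (0 : ℝ) ≤ 3 / 2 * D)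

lemma abs_co_le' (x : E) (j : ℕ) : |co x j| ≤ ‖x‖ := abs_co_le x j

lemma summable_co (x : E) : Summable (fun j => w j * co x (j + 1)) := summable_wx (x.1)

lemma part_le (x : E) (n : ℕ) :
    |∑ i ∈ Finset.range n, co x (i + 1) * w i| ≤ (1 + 3 / 2 * (1 / 2) ^ n) * ‖x‖ := by
  have h1 := co_zero_eq x
  have h2 := (summable_co x).sum_add_tsum_nat_add n
  have h3 : |∑' i, w (i + n) * co x (i + n + 1)| ≤ 3 / 2 * (1 / 2) ^ n * ‖x‖ := by
    have hs : HasSum (fun i => w i * ((1 / 2) ^ n * ‖x‖)) (3 / 2 * ((1 / 2) ^ n * ‖x‖)) :=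
      hasSum_w.mul_right _
    have := tsum_of_norm_bounded hs (f := fun i => w (i + n) * co x (i + n + 1)) (by
      intro i
      rw [Real.norm_eq_abs, abs_mul, abs_of_nonneg (w_nonneg _)]
      have e : w (i + n) = w i * (1 / 2) ^ n := by unfold w; rw [pow_add]; ring
      rw [e, mul_assoc]
      exact mul_le_mul_of_nonneg_left
        (mul_le_mul_of_nonneg_left (abs_co_le x _) (by positivity)) (w_nonneg i))
    rw [Real.norm_eq_abs] at this
    linarith
  have h4 : ∑ i ∈ Finset.range n, co x (i + 1) * w i = ∑ i ∈ Finset.range n, w i * co x (i + 1) :=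
    Finset.sum_congr rfl fun i _ => mul_comm _ _
  have h5 : ∑ i ∈ Finset.range n, w i * co x (i + 1) =
      co x 0 - ∑' i, w (i + n) * co x (i + n + 1) := by
    rw [h1, ← h2]; ring
  rw [h4, h5]
  have h6 := abs_sub (co x 0) (∑' i, w (i + n) * co x (i + n + 1))
  have h7 := abs_co_le x 0
  linarith

lemma num (n : ℕ) : (1 - s n) * (1 + 3 / 2 * (1 / 2) ^ n) + 3 / 2 * (s n - s (n + 1)) ≤ 1 := by
  have h2 : 2 * n ≤ 2 ^ n := by
    induction n with
    | zero => simp
    | succ n ih =>
      rcases Nat.eq_zero_or_pos n with h | h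
      · subst h; norm_num
      · rw [pow_succ]
        have : 2 ≤ 2 ^ n := by
          calc 2 = 2 ^ 1 := (pow_one 2).symm
            _ ≤ 2 ^ n := Nat.pow_le_pow_right (by norm_num) h
        omega
  have h3 : (n : ℝ) * (1 / 2) ^ n ≤ 1 / 2 := by
    have h4 : (2 : ℝ) * n ≤ 2 ^ n := by exact_mod_cast h2
    rw [one_div, inv_pow, ← div_eq_mul_inv, div_le_iff₀ (by positivity)]
    linarith
  have hn : (0 : ℝ) ≤ n := Nat.cast_nonneg n
  set t : ℝ := (1 / 2) ^ n with ht
  have e1 : (1 - s n) * (1 + 3 / 2 * t) + 3 / 2 * (s n - s (n + 1)) =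
      ((n : ℝ) + 3 / 2 * (n * t) + 3 / ((n : ℝ) + 3)) / ((n : ℝ) + 2) := by
    unfold s
    push_cast
    field_simp
    ring
  rw [e1, div_le_one (by positivity)]
  have e2 : 3 / ((n : ℝ) + 3) ≤ 1 := by
    rw [div_le_one (by positivity)]; linarith
  linarith

/-- the closed form of the partial sums -/
def W (n j : ℕ) (x : E) : E := ∑ i ∈ Finset.range n, (c n j i * co x (i + 1)) • b i

lemma W_norm (n j : ℕ) (x : E) : ‖W n j x‖ ≤ ‖x‖ := by
  have hx := norm_nonneg x
  refine norm_le _ _ hx fun l => ?_
  unfold W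
  rcases l with _ | i
  · rw [co_comb_zero n (fun i => c n j i * co x (i + 1))]
    have e1 : ∑ k ∈ Finset.range n, c n j k * co x (k + 1) * w k =
        (1 - s n) * ∑ k ∈ Finset.range n, co x (k + 1) * w k +
        (s n - s (n + 1)) * ∑ k ∈ Finset.range n, (if k < j then co x (k + 1) else 0) * w k := by
      rw [Finset.mul_sum, Finset.mul_sum, ← Finset.sum_add_distrib]
      refine Finset.sum_congr rfl fun k _ => ?_
      unfold c
      split_ifs <;> ring
    have e2 : |∑ k ∈ Finset.range n, (if k < j then co x (k + 1) else 0) * w k| ≤ 3 / 2 * ‖x‖ := by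
      have := comb_le n (fun k => if k < j then co x (k + 1) else 0) ‖x‖ hx (by
        intro i _
        split_ifs
        · exact abs_co_le x _
        · simpa using hx)
      have h2 := abs_co_le (∑ k ∈ Finset.range n, (if k < j then co x (k + 1) else 0) • b k) 0
      rw [co_comb_zero] at h2
      exact h2.trans this
    have e3 := part_le x n
    have e4 := num n
    have e5 := s_le_one n
    have e6 := s_anti n
    rw [e1]
    calc _ ≤ |(1 - s n) * ∑ k ∈ Finset.range n, co x (k + 1) * w k| +
          |(s n - s (n + 1)) * ∑ k ∈ Finset.range n, (if k < j then co x (k + 1) else 0) * w k| :=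
          abs_add_le _ _
      _ = (1 - s n) * |∑ k ∈ Finset.range n, co x (k + 1) * w k| +
          (s n - s (n + 1)) *
            |∑ k ∈ Finset.range n, (if k < j then co x (k + 1) else 0) * w k| := by
          rw [abs_mul, abs_mul, abs_of_nonneg (by linarith : 0 ≤ 1 - s n),
            abs_of_nonneg (by linarith : 0 ≤ s n - s (n + 1))]
      _ ≤ (1 - s n) * ((1 + 3 / 2 * (1 / 2) ^ n) * ‖x‖) + (s n - s (n + 1)) * (3 / 2 * ‖x‖) := by
          have := mul_le_mul_of_nonneg_left e3 (by linarith : 0 ≤ 1 - s n)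
          have := mul_le_mul_of_nonneg_left e2 (by linarith : 0 ≤ s n - s (n + 1))
          linarith
      _ = ((1 - s n) * (1 + 3 / 2 * (1 / 2) ^ n) + 3 / 2 * (s n - s (n + 1))) * ‖x‖ := by ring
      _ ≤ 1 * ‖x‖ := mul_le_mul_of_nonneg_right e4 hx
      _ = ‖x‖ := one_mul _
  · rw [co_comb n (fun i => c n j i * co x (i + 1))]
    split_ifs
    · rw [abs_mul, abs_of_nonneg (c_nonneg n j i)]
      calc c n j i * |co x (i + 1)| ≤ 1 * ‖x‖ :=
            mul_le_mul (c_le n j i) (abs_co_le x _) (abs_nonneg _) zero_le_one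
        _ = ‖x‖ := one_mul _
    · simpa using hx

/-- canonical projections -/
lemma proj_tendsto (x : E) :
    Tendsto (fun n : ℕ => ∑ i ∈ Finset.range n, co x (i + 1) • b i) atTop (𝓝 x) := by
  rw [Metric.tendsto_atTop]
  intro ε hε
  obtain ⟨M, hM⟩ := (Metric.tendsto_atTop.mp (co_tendsto x)) (ε / 2) (by positivity)
  refine ⟨max M 1, fun n hn => ?_⟩
  have hsg : ∀ k, sg 0 k = k := by
    intro k
    unfold sg
    rw [if_neg (by omega)]
    split_ifs with h
    · exact h.symm
    · rfl
  have hf : ∀ k, f 0 k = b k := by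
    intro k
    unfold f
    rw [hsg]
  have := norm_tail_le 0 n (by omega) x (ε / 2) (by positivity) (by
      intro i hi
      have := hM (i + 1) (by omega)
      rw [Real.dist_eq, sub_zero] at this
      exact this.le)
  simp only [hsg, hf] at this
  rw [dist_comm, dist_eq_norm]
  linarith

lemma W_tendsto (x : E) : Tendsto (fun k => W (st k).1 (st k).2 x) atTop (𝓝 x) := by
  have h1 : Tendsto (fun k => ∑ i ∈ Finset.range (st k).1, co x (i + 1) • b i) atTop (𝓝 x) :=
    (proj_tendsto x).comp st_tendsto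
  have hs : Tendsto s atTop (𝓝 0) := by
    unfold s
    exact Tendsto.div_atTop tendsto_const_nhds
      (tendsto_atTop_add_const_right _ _ tendsto_natCast_atTop_atTop)
  have h2 : Tendsto (fun k => 3 / 2 * (s (st k).1 * ‖x‖)) atTop (𝓝 0) := by
    have := ((hs.comp st_tendsto).mul_const ‖x‖).const_mul (3 / 2)
    simpa using this
  have h3 : Tendsto (fun k => W (st k).1 (st k).2 x -
      ∑ i ∈ Finset.range (st k).1, co x (i + 1) • b i) atTop (𝓝 0) := by
    refine squeeze_zero_norm (fun k => ?_) h2
    unfold W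
    rw [← Finset.sum_sub_distrib]
    have e : ∀ i ∈ Finset.range (st k).1, (c (st k).1 (st k).2 i * co x (i + 1)) • b i -
        co x (i + 1) • b i = ((c (st k).1 (st k).2 i - 1) * co x (i + 1)) • b i := by
      intro i _
      rw [← sub_smul]
      congr 1
      ring
    rw [Finset.sum_congr rfl e]
    refine comb_le _ _ _ (mul_nonneg (s_pos _).le (norm_nonneg _)) fun i _ => ?_
    rw [abs_mul]
    refine mul_le_mul ?_ (abs_co_le x _) (abs_nonneg _) (s_pos _).le
    rw [abs_le]
    have := c_ge (st k).1 (st k).2 i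
    have := c_le (st k).1 (st k).2 i
    have := s_pos (st k).1
    constructor <;> linarith
  have := h3.add h1
  simpa using this

/-- coordinate functionals -/
def cf (j : ℕ) : E →L[ℝ] ℝ :=
  LinearMap.mkContinuous
    { toFun := fun x => co x j
      map_add' := fun x z => co_add x z j
      map_smul' := fun a x => co_smul a x j } 1 (fun x => by
        rw [one_mul]; exact abs_co_le x j)

lemma cf_apply (j : ℕ) (x : E) : cf j x = co x j := rfl

/-- the vectors -/
def yy (k : ℕ) : E := b (st k).2

/-- the functionals -/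
def gg (k : ℕ) : E →L[ℝ] ℝ :=
  (if (st k).2 < (st k).1 then s (st k).1 - s ((st k).1 + 1) else 1 - s ((st k).1 + 1)) •
    cf ((st k).2 + 1)

lemma V_eq (k : ℕ) (x : E) : V yy gg k x = W (st k).1 (st k).2 x := by
  induction k with
  | zero => simp [V, W, st]
  | succ k ih =>
    have h0 : V yy gg (k + 1) x = V yy gg k x + gg k x • yy k := by
      unfold V
      rw [Finset.sum_range_succ]
    have hle := st_le k
    rw [h0, ih, st_succ]
    generalize hn : (st k).1 = n at *
    generalize hj : (st k).2 = j at *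
    unfold W
    by_cases h : j < n
    · rw [if_pos h]
      have hg : gg k x • yy k = ((s n - s (n + 1)) * co x (j + 1)) • b j := by
        unfold gg yy
        rw [hn, hj, if_pos h]
        rfl
      rw [hg]
      simp only
      have e : ∀ i ∈ Finset.range n, (c n (j + 1) i * co x (i + 1)) • b i =
          (c n j i * co x (i + 1)) • b i +
          (if i = j then ((s n - s (n + 1)) * co x (i + 1)) • b i else 0) := by
        intro i _
        by_cases hij : i = j
        · subst hij
          rw [if_pos rfl, ← add_smul]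
          congr 1
          unfold c
          rw [if_pos (by omega), if_neg (by omega)]
          ring
        · rw [if_neg hij, add_zero]
          congr 2
          unfold c
          by_cases h1 : i < j
          · rw [if_pos (by omega), if_pos h1]
          · rw [if_neg (by omega), if_neg h1]
      rw [Finset.sum_congr rfl e, Finset.sum_add_distrib, Finset.sum_ite_eq']
      rw [if_pos (Finset.mem_range.2 h)]
    · rw [if_neg h]
      have hjn : j = n := by omega
      have hg : gg k x • yy k = ((1 - s (n + 1)) * co x (j + 1)) • b j := by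
        unfold gg yy
        rw [hn, hj, if_neg h]
        rfl
      rw [hg]
      simp only
      rw [Finset.sum_range_succ, hjn]
      congr 1
      · refine Finset.sum_congr rfl fun i hi => ?_
        congr 2
        unfold c
        rw [if_pos (Finset.mem_range.1 hi), if_neg (by omega)]

lemma b_ne (i : ℕ) : b i ≠ 0 := by
  intro h
  have h1 := co_b_succ i i
  rw [h, if_pos rfl, co_zero'] at h1
  exact zero_ne_one h1

lemma infinite_E : ¬ FiniteDimensional ℝ E := by
  intro hfin
  have hli : LinearIndependent ℝ b := by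
    rw [linearIndependent_iff']
    intro t d hd i hi
    have h1 : co (∑ k ∈ t, d k • b k) (i + 1) = 0 := by rw [hd, co_zero']
    rw [co_sum] at h1
    have h2 : ∀ k ∈ t, co (d k • b k) (i + 1) = if i = k then d k else 0 := by
      intro k _
      rw [co_smul, co_b_succ]
      split_ifs <;> simp
    rw [Finset.sum_congr rfl h2, Finset.sum_ite_eq, if_pos hi] at h1
    exact h1
  have := hli.finite_of_isNoetherian
  exact not_finite ℕ

theorem fin (H : ∀ (B : Type) [NormedAddCommGroup B] [NormedSpace ℝ B] [CompleteSpace B],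
    ¬ FiniteDimensional ℝ B →
    (∃ e : ℕ → B,
      (∀ x : B, ∃! a : ℕ → ℝ,
        Tendsto (fun n : ℕ => ∑ i ∈ Finset.range n, a i • e i) atTop (𝓝 x)) ∧
      (∀ (a : ℕ → ℝ) (n m : ℕ), n ≤ m →
        ‖∑ i ∈ Finset.range n, a i • e i‖ ≤ ‖∑ i ∈ Finset.range m, a i • e i‖)) →
    ∀ F : Submodule ℝ B, IsClosed (F : Set B) → ¬ FiniteDimensional ℝ F →
      (∃ P : B →L[ℝ] B, (∀ x : B, P x ∈ F) ∧ (∀ x ∈ F, P x = x) ∧ ‖P‖ ≤ 1) →
      ∃ f : ℕ → B, (∀ i : ℕ, f i ∈ F) ∧
        (∀ x ∈ F, ∃! a : ℕ → ℝ,
          Tendsto (fun n : ℕ => ∑ i ∈ Finset.range n, a i • f i) atTop (𝓝 x)) ∧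
        (∀ (a : ℕ → ℝ) (n m : ℕ), n ≤ m →
          ‖∑ i ∈ Finset.range n, a i • f i‖ ≤ ‖∑ i ∈ Finset.range m, a i • f i‖)) : False := by
  refine main (y := yy) (g := gg) (fun k x => ?_) (fun x => ?_) (fun i => b_ne _) infinite_E
    (fun e h1 h2 => no_monotone e h1 h2) H
  · rw [V_eq]
    exact W_norm _ _ x
  · simp only [V_eq]
    exact W_tendsto x

end

end Pool.Agent.W58.MB
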